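import Pool.Agent.Lib.MP_7bc610_gt.H9Fin

/-!
The second-order jet of the bracket at `t = -1` detects the unknot among algebraically
alternating knots.
-/

namespace Pool.Agent.Variants.MP_7bc610_gt.AlgAlternatingJet

open Pool.Agent.Lib.MP_7bc610_gt LaurentPolynomial

theorem dJ_cube : dJ ^ 3 = 0 := by
  rw [pow_three]
  ext <;> simp [dJ, J.mul_def, J.hJ, J.zero_def]

theorem gl_add {c : ℤ[T;T⁻¹]} (hc : IsSU c) (g : ℤ[T;T⁻¹]) :
    J.Gl (ph (c + loopVal ^ 3 * g)) := by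
  rw [map_add, map_mul, map_pow, ph_loop, dJ_cube, zero_mul, add_zero]
  exact hc.gl

theorem gl_ZJ' {E : List Ev} {X : ℕ → AT} (h : J.Gl (ph (ZL E X))) : J.Gl (ZJ E X) := by
  obtain ⟨v, hv, e⟩ := ph_Zs X (ids E) (lam E)
  rw [ZL, e] at h
  exact hv.cancel h

theorem exists_state' (X : ℕ → AT) {u : Tm} (hv : TV 0 u 0) (hn : (tids u).Nodup)
    {c : ℤ[T;T⁻¹]} (hg : J.Gl (ph c)) (h : stateSum (itp X u) = c * loopVal) :
    ∃ A : Finset ℕ, loops (tl A u) Eq = 1 ∧
      ∀ j ∈ tids u, (j ∈ A → (X j).frac.1 ≠ 0) ∧ (j ∉ A → (X j).frac.2 ≠ 0) := by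
  have hne : u ≠ [] := by
    rintro rfl
    have h0 : (1 : ℤ[T;T⁻¹]) = c * loopVal := h
    have h1 := congrArg (fun x => (ph x).c0) h0
    simp only [map_one, map_mul, ph_loop, dJ, J.mul_def, J.one_def, J.hJ, mul_zero] at h1
    exact one_ne_zero h1
  rw [stateSum_itp X hv hn hne, mul_comm c] at h
  have h1 := mul_left_cancel₀ loopVal_ne h
  obtain ⟨v, hv', e⟩ := ph_Zs X (tids u).toFinset fun A => loops (tl A u) Eq - 1
  rw [← h1, e] at hg
  have h2 := jd_c0_ne (hv'.cancel hg)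
  rw [Zj, Zs_c0] at h2
  obtain ⟨A, hA, h3⟩ := Finset.exists_ne_zero_of_sum_ne_zero h2
  obtain ⟨-, hA2⟩ := Finset.mem_filter.1 hA
  have h4 := loops_pos pm_eq (hv.valid_tl A) (noCr_tl A u) fun g => hne (tl_eq_nil.1 g)
  refine ⟨A, by omega, fun j hj => ⟨fun hjA e0 => ?_, fun hjA e0 => ?_⟩⟩
  · have p := jd_pp (X j)
    rw [e0, Int.cast_zero, zero_pow two_ne_zero, pow_eq_zero_iff two_ne_zero] at p
    refine Finset.prod_ne_zero_iff.1 (left_ne_zero_of_mul h3) j hjA ?_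
    simp [JD.W, J.mul_def, p]
  · have p := jd_qq (X j)
    rw [e0, Int.cast_zero, zero_pow two_ne_zero, pow_eq_zero_iff two_ne_zero] at p
    refine Finset.prod_ne_zero_iff.1 (right_ne_zero_of_mul h3) j
      (Finset.mem_sdiff.2 ⟨List.mem_toFinset.2 hj, hjA⟩) ?_
    simp [JD.U, p]

theorem final (D : List (Piece × ℕ)) (hv : Valid 0 (expand D) 0) (ha : AlgAlt D)
    {c0 : ℤ[T;T⁻¹]} (hc0 : J.Gl (ph c0)) (h : stateSum (expand D) = loopVal * c0) :
    Isotopic 0 0 (expand D) [(Kind.cup, 0), (Kind.cap, 0)] := by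
  obtain ⟨u, X, hu, hn, hi, hs⟩ := conv9 D hv
  have unit : ∀ w, Isotopic 0 0 (expand D) w →
      ∃ c, J.Gl (ph c) ∧ stateSum w = c * loopVal := by
    intro w hw
    obtain ⟨c, hc, e⟩ := stateSum_iso hw.symm
    exact ⟨c * c0, by rw [map_mul]; exact hc.gl.mul hc0, by rw [e, h]; ring⟩
  obtain ⟨s, hs1, hs2⟩ : ∃ s : ℤ, (s = 1 ∨ s = -1) ∧
      ∀ x ∈ bp u, 0 ≤ s * ((-1) ^ x.2 * mm X x.1) := by
    rcases ha with ha | ha
    · refine ⟨1, Or.inl rfl, fun x hx => ?_⟩
      obtain ⟨g, hg, e⟩ := hs x hx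
      rw [e, one_mul]; exact ha g hg
    · refine ⟨-1, Or.inr rfl, fun x hx => ?_⟩
      obtain ⟨g, hg, e⟩ := hs x hx
      have := ha g hg
      rw [e]; linarith
  obtain ⟨c, hc, e⟩ := unit _ hi
  obtain ⟨A, hA, hA'⟩ := exists_state' X hu hn hc e
  obtain ⟨E, ρ, hE, ht, hρ⟩ := bridge A hu hn hA
  set X' : ℕ → AT := fun j => rotN (ρ j) (X j) with hX'
  have hi2 : Isotopic 0 0 (expand D) (NFw E X') := by
    refine hi.trans ?_
    have := ht.2.1 X
    rwa [List.cons_append, itp, itp_append, itp_nfT, ← hX',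
      show itp X [(TK.cap, 0)] = itp X' [(TK.cap, 0)] from rfl, ← itp_append] at this
  obtain ⟨c', hc', e'⟩ := unit _ hi2
  rw [stateSum_NFw hE, mul_comm c', mul_right_inj' loopVal_ne] at e'
  have hgl : J.Gl (ZJ E X') := gl_ZJ' (e' ▸ hc')
  have hb : ∀ j ∈ ids E, (j, ((if side E j then 0 else 1) + ρ j) % 2) ∈ bp u := fun j hj => by
    obtain ⟨t, hj'⟩ := mem_ids.1 hj
    rw [ht.2.2.mem_iff, List.cons_append, bp, bp_append, bp_nfT]
    refine List.mem_append_left _ (List.mem_map.2 ⟨⟨t, true, j⟩, by simpa using hj', ?_⟩)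
    rw [show side E j = t from hE.side_eq hj']
  have hg : Good E X' := by
    refine good_of_unit hE (fun j hj => ?_) hs1 (fun j hj => ?_) hgl
    · have hj' := hA' j (List.mem_map.2 ⟨_, hb j hj, rfl⟩)
      obtain ⟨-, r2, r3⟩ := frac_rotN (ρ j) (X j)
      intro h0
      rw [show (rotN (ρ j) (X j)).frac.2 = 0 from h0] at r2 r3
      by_cases hm : j ∈ A
      · exact hj'.1 hm (pow_eq_zero_iff two_ne_zero |>.1 (by rw [← r3 ((hρ j hj).1 hm)]; simp))
      · have : ρ j % 2 = 0 := by have := (hρ j hj).not.1 hm; omega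
        exact hj'.2 hm (pow_eq_zero_iff two_ne_zero |>.1 (by rw [← r2 this]; simp))
    · have := hs2 _ (hb j hj)
      simp only [← neg_one_pow_eq_pow_mod_two] at this
      have r1 : mm X' j = (-1) ^ ρ j * mm X j := (frac_rotN (ρ j) (X j)).1
      rw [r1]
      convert this using 1
      cases side E j <;> simp [pow_add]
  obtain ⟨d, -, d2, d3⟩ := main9 E X' hg
  rw [cc_gl hgl] at d2
  exact hi2.trans (d3 (by exact_mod_cast d2.symm))

/-- If the Kauffman bracket of an algebraically alternating diagram is `± A^k` modulo `d^3`,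
`d = -A^2 - A^(-2)` (in particular if its Jones polynomial is `1` modulo `(1 + t)^3`), then the
diagram is related to the round circle by planar isotopy and Reidemeister moves. -/
theorem result (D : List (Piece × ℕ)) (hv : Valid 0 (expand D) 0) (ha : AlgAlt D) (k : ℤ)
    (g : ℤ[T;T⁻¹])
    (h : stateSum (expand D) = loopVal * (T k + loopVal ^ 3 * g) ∨
      stateSum (expand D) = loopVal * (-T k + loopVal ^ 3 * g)) :
    Isotopic 0 0 (expand D) [(Kind.cup, 0), (Kind.cap, 0)] := by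
  rcases h with h | h
  · exact final D hv ha (gl_add ⟨k, Or.inl rfl⟩ g) h
  · exact final D hv ha (gl_add ⟨k, Or.inr rfl⟩ g) h

end Pool.Agent.Variants.MP_7bc610_gt.AlgAlternatingJet
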